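import Pool.Agent.Work.MP_4eb3f9_an.Interface

/-!
# MP_4eb3f9_an, block B3: Hadamard's inequality at roots of unity
-/

open Complex MeasureTheory Filter Topology
open scoped ContDiff ComplexOrder Matrix

namespace CMA
namespace B3

/-- Hadamard for a psd matrix with unit diagonal. -/
theorem det_le_one_of_diag {N : ℕ} (G : Matrix (Fin N) (Fin N) ℂ) (hG : G.PosSemidef)
    (hd : ∀ i, G i i = 1) : G.det.re ≤ 1 := by
  have h1 : G.det = ((∏ i, hG.1.eigenvalues i : ℝ) : ℂ) := by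
    rw [hG.1.det_eq_prod_eigenvalues]; push_cast; rfl
  have h2 : ((∑ i, hG.1.eigenvalues i : ℝ) : ℂ) = (N : ℂ) := by
    have := hG.1.trace_eq_sum_eigenvalues
    rw [Matrix.trace] at this
    simp only [Matrix.diag_apply, hd, Finset.sum_const, Finset.card_univ, Fintype.card_fin,
      nsmul_eq_mul, mul_one] at this
    rw [this]; push_cast; rfl
  have h3 : ∑ i, hG.1.eigenvalues i = (N : ℝ) := by exact_mod_cast h2
  rw [h1, Complex.ofReal_re]
  calc ∏ i, hG.1.eigenvalues i ≤ ∏ i, Real.exp (hG.1.eigenvalues i - 1) := by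
        refine Finset.prod_le_prod (fun i _ => hG.eigenvalues_nonneg i) (fun i _ => ?_)
        have := Real.add_one_le_exp (hG.1.eigenvalues i - 1)
        linarith
    _ = Real.exp (∑ i, (hG.1.eigenvalues i - 1)) := (Real.exp_sum _ _).symm
    _ = 1 := by
        rw [Finset.sum_sub_distrib, h3]; simp

theorem hadamard {N : ℕ} (A : Matrix (Fin N) (Fin N) ℂ) :
    ‖A.det‖ ^ 2 ≤ ∏ i, ∑ j, ‖A i j‖ ^ 2 := by
  by_cases h0 : ∃ i, ∑ j, ‖A i j‖ ^ 2 = 0
  · obtain ⟨i, hi⟩ := h0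
    have hrow : ∀ j, A i j = 0 := by
      intro j
      have := (Finset.sum_eq_zero_iff_of_nonneg (fun j _ => by positivity)).1 hi j (Finset.mem_univ j)
      simpa using this
    rw [Matrix.det_eq_zero_of_row_eq_zero i hrow, Finset.prod_eq_zero (Finset.mem_univ i) hi]
    simp
  · push Not at h0
    have hpos : ∀ i, 0 < ∑ j, ‖A i j‖ ^ 2 := fun i =>
      lt_of_le_of_ne (Finset.sum_nonneg (fun j _ => by positivity)) (Ne.symm (h0 i))
    set s : Fin N → ℝ := fun i => Real.sqrt (∑ j, ‖A i j‖ ^ 2) with hs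
    have hspos : ∀ i, 0 < s i := fun i => Real.sqrt_pos.2 (hpos i)
    set D : Matrix (Fin N) (Fin N) ℂ := Matrix.diagonal (fun i => ((s i)⁻¹ : ℂ)) with hD
    set B := D * A with hB
    have hBij : ∀ i j, B i j = ((s i)⁻¹ : ℂ) * A i j := by
      intro i j; rw [hB, hD, Matrix.diagonal_mul]
    have hG : (B * Bᴴ).PosSemidef := Matrix.posSemidef_self_mul_conjTranspose B
    have hdiag : ∀ i, (B * Bᴴ) i i = 1 := by
      intro i
      rw [Matrix.mul_apply]
      have : ∀ j, B i j * Bᴴ j i = (((s i)⁻¹ ^ 2 * ‖A i j‖ ^ 2 : ℝ) : ℂ) := by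
        intro j
        rw [Matrix.conjTranspose_apply, hBij]
        have h1 : (((s i)⁻¹ : ℂ) * A i j) * star (((s i)⁻¹ : ℂ) * A i j)
            = ((‖((s i)⁻¹ : ℂ) * A i j‖ ^ 2 : ℝ) : ℂ) := by
          rw [Complex.star_def, Complex.mul_conj, Complex.normSq_eq_norm_sq]
        rw [h1, norm_mul, mul_pow, norm_inv, Complex.norm_real, Real.norm_eq_abs, abs_of_pos (hspos i)]
      rw [Finset.sum_congr rfl (fun j _ => this j), ← Complex.ofReal_sum, ← Finset.mul_sum]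
      have h2 : (s i) ^ 2 = ∑ j, ‖A i j‖ ^ 2 := Real.sq_sqrt (hpos i).le
      rw [← h2, inv_pow, inv_mul_cancel₀ (by have := hspos i; positivity)]
      simp
    have h1 := det_le_one_of_diag _ hG hdiag
    have h2 : (B * Bᴴ).det.re = ‖B.det‖ ^ 2 := by
      rw [Matrix.det_mul, Matrix.det_conjTranspose, Complex.star_def, Complex.mul_conj,
        Complex.normSq_eq_norm_sq, Complex.ofReal_re]
    have h3 : ‖B.det‖ ^ 2 = (∏ i, (∑ j, ‖A i j‖ ^ 2))⁻¹ * ‖A.det‖ ^ 2 := by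
      rw [hB, Matrix.det_mul, hD, Matrix.det_diagonal, norm_mul, mul_pow]
      congr 1
      rw [norm_prod, ← Finset.prod_pow, ← Finset.prod_inv_distrib]
      refine Finset.prod_congr rfl (fun i _ => ?_)
      rw [norm_inv, Complex.norm_real, Real.norm_eq_abs, abs_of_pos (hspos i), inv_pow,
        Real.sq_sqrt (hpos i).le]
    rw [h2, h3] at h1
    have hP : 0 < ∏ i, (∑ j, ‖A i j‖ ^ 2) := Finset.prod_pos (fun i _ => hpos i)
    rw [inv_mul_le_iff₀ hP] at h1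
    linarith

/-- Orthogonality of characters. -/
theorem sum_root {N : ℕ} (hN : 1 ≤ N) {ζ : ℂ} (hζ : IsPrimitiveRoot ζ N) (k l : Fin N) :
    ∑ i : Fin N, star ((ζ ^ (i : ℕ)) ^ (k : ℕ)) * (ζ ^ (i : ℕ)) ^ (l : ℕ)
      = if k = l then (N : ℂ) else 0 := by
  have hζ0 : ζ ≠ 0 := hζ.ne_zero (by omega)
  have hnorm : ‖ζ‖ = 1 := Complex.norm_eq_one_of_pow_eq_one hζ.pow_eq_one (by omega)
  have hconj : star ζ = ζ⁻¹ := by
    rw [Complex.star_def]; exact (Complex.inv_eq_conj hnorm).symm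
  set r : ℂ := (ζ⁻¹) ^ (k : ℕ) * ζ ^ (l : ℕ) with hr
  have hterm : ∀ i : Fin N, star ((ζ ^ (i : ℕ)) ^ (k : ℕ)) * (ζ ^ (i : ℕ)) ^ (l : ℕ) = r ^ (i : ℕ) := by
    intro i
    rw [star_pow, star_pow, hconj, hr, mul_pow, ← pow_mul, ← pow_mul, ← pow_mul, ← pow_mul,
      Nat.mul_comm (i : ℕ) k, Nat.mul_comm (i : ℕ) l]
  rw [Finset.sum_congr rfl (fun i _ => hterm i), Fin.sum_univ_eq_sum_range (fun i => r ^ i) N]
  split_ifs with hkl
  · have : r = 1 := by
      rw [hr, hkl, inv_pow, inv_mul_cancel₀ (pow_ne_zero _ hζ0)]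
    simp [this]
  · have hr1 : r ≠ 1 := by
      intro h
      have h2 : ζ ^ (l : ℕ) = ζ ^ (k : ℕ) := by
        rw [hr, inv_pow, inv_mul_eq_iff_eq_mul₀ (pow_ne_zero _ hζ0), mul_one] at h
        exact h
      have := hζ.pow_inj l.2 k.2 h2
      exact hkl (Fin.ext this.symm)
    have hrN : r ^ N = 1 := by
      rw [hr, mul_pow, ← pow_mul, ← pow_mul, Nat.mul_comm, Nat.mul_comm (l : ℕ), pow_mul, pow_mul,
        inv_pow, hζ.pow_eq_one]
      simp
    rw [geom_sum_eq hr1, hrN]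
    simp

/-- Determinant of the Vandermonde matrix at `z ζ^i`. -/
theorem det_vand {N : ℕ} (hN : 1 ≤ N) {ζ : ℂ} (hζ : IsPrimitiveRoot ζ N) (z : ℂ) :
    ‖(Matrix.of (fun i k : Fin N => (ζ ^ (i : ℕ) * z) ^ (k : ℕ))).det‖ ^ 2
      = (N : ℝ) ^ N * ∏ k : Fin N, (‖z‖ ^ (k : ℕ)) ^ 2 := by
  set V : Matrix (Fin N) (Fin N) ℂ := Matrix.of (fun i k : Fin N => (ζ ^ (i : ℕ) * z) ^ (k : ℕ))
    with hV
  have h1 : Vᴴ * V = Matrix.diagonal (fun k : Fin N => (((N : ℝ) * (‖z‖ ^ (k : ℕ)) ^ 2 : ℝ) : ℂ)) := by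
    ext k l
    rw [Matrix.mul_apply]
    have : ∀ i : Fin N, Vᴴ k i * V i l = (star (z ^ (k : ℕ)) * z ^ (l : ℕ)) *
        (star ((ζ ^ (i : ℕ)) ^ (k : ℕ)) * (ζ ^ (i : ℕ)) ^ (l : ℕ)) := by
      intro i
      rw [Matrix.conjTranspose_apply, hV, Matrix.of_apply, Matrix.of_apply, mul_pow, mul_pow,
        star_mul']
      ring
    rw [Finset.sum_congr rfl (fun i _ => this i), ← Finset.mul_sum, sum_root hN hζ k l]
    by_cases hkl : k = l
    · subst hkl
      rw [if_pos rfl, Matrix.diagonal_apply_eq, mul_comm (star _), Complex.star_def,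
        Complex.mul_conj, Complex.normSq_eq_norm_sq, norm_pow]
      push_cast
      ring
    · rw [if_neg hkl, Matrix.diagonal_apply_ne _ hkl, mul_zero]
  have h2 : (Vᴴ * V).det = ((‖V.det‖ ^ 2 : ℝ) : ℂ) := by
    rw [Matrix.det_mul, Matrix.det_conjTranspose, mul_comm, Complex.star_def, Complex.mul_conj,
      Complex.normSq_eq_norm_sq]
  rw [h1, Matrix.det_diagonal, ← Complex.ofReal_prod] at h2
  have h3 := Complex.ofReal_injective h2
  rw [← h3, Finset.prod_mul_distrib, Finset.prod_const, Finset.card_univ, Fintype.card_fin]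

/-- The pointwise inequality. -/
theorem pointwise {N : ℕ} (hN : 1 ≤ N) (E : Matrix (Fin N) (Fin N) ℂ) (hE : E.det ≠ 0) (ε : ℝ)
    (hε : 0 < ε) {ζ : ℂ} (hζ : IsPrimitiveRoot ζ N) (z : ℂ) (hz : z ≠ 0) (hz1 : ‖z‖ < 1) :
    Real.log (‖E.det‖ ^ 2) + N ^ 2 * Real.log ‖z‖ ≤
      ∑ i : Fin N, Real.log (ε + ∑ j : Fin N, ‖∑ k : Fin N, (ζ ^ (i : ℕ) * z) ^ (k : ℕ) * E k j‖ ^ 2) := by
  have hz0 : 0 < ‖z‖ := norm_pos_iff.2 hz
  have hlz : Real.log ‖z‖ ≤ 0 := Real.log_nonpos hz0.le hz1.le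
  set V : Matrix (Fin N) (Fin N) ℂ := Matrix.of (fun i k : Fin N => (ζ ^ (i : ℕ) * z) ^ (k : ℕ))
    with hV
  have h1 := hadamard (V * E)
  have h2 := det_vand hN hζ z
  rw [← hV] at h2
  have hEpos : 0 < ‖E.det‖ ^ 2 := by
    have := norm_pos_iff.2 hE
    positivity
  have hNpos : (0 : ℝ) < N := by exact_mod_cast hN
  have h3 : (∏ i : Fin N, ∑ j, ‖(V * E) i j‖ ^ 2) ≤
      ∏ i : Fin N, (ε + ∑ j : Fin N, ‖∑ k : Fin N, (ζ ^ (i : ℕ) * z) ^ (k : ℕ) * E k j‖ ^ 2) := by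
    refine Finset.prod_le_prod (fun i _ => Finset.sum_nonneg (fun j _ => by positivity))
      (fun i _ => ?_)
    have : ∀ j, (V * E) i j = ∑ k : Fin N, (ζ ^ (i : ℕ) * z) ^ (k : ℕ) * E k j := by
      intro j; rw [Matrix.mul_apply]; rfl
    rw [Finset.sum_congr rfl (fun j _ => by rw [this j])]
    linarith
  have h4 : ‖(V * E).det‖ ^ 2 = ((N : ℝ) ^ N * ∏ k : Fin N, (‖z‖ ^ (k : ℕ)) ^ 2) * ‖E.det‖ ^ 2 := by
    rw [Matrix.det_mul, norm_mul, mul_pow, h2]
  have hprodpos : 0 < ∏ k : Fin N, (‖z‖ ^ (k : ℕ)) ^ 2 := Finset.prod_pos (fun k _ => by positivity)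
  have h5 : Real.log (((N : ℝ) ^ N * ∏ k : Fin N, (‖z‖ ^ (k : ℕ)) ^ 2) * ‖E.det‖ ^ 2) ≤
      Real.log (∏ i : Fin N, (ε + ∑ j : Fin N, ‖∑ k : Fin N, (ζ ^ (i : ℕ) * z) ^ (k : ℕ) * E k j‖ ^ 2)) := by
    apply Real.log_le_log
    · positivity
    · rw [← h4]; exact h1.trans h3
  rw [Real.log_prod (fun i _ => ?_)] at h5
  swap
  · have : 0 ≤ ∑ j : Fin N, ‖∑ k : Fin N, (ζ ^ (i : ℕ) * z) ^ (k : ℕ) * E k j‖ ^ 2 :=
      Finset.sum_nonneg (fun j _ => by positivity)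
    positivity
  refine le_trans ?_ h5
  rw [Real.log_mul (by positivity) (by positivity), Real.log_mul (by positivity) (by positivity),
    Real.log_prod (fun k _ => by positivity)]
  have h6 : 0 ≤ Real.log ((N : ℝ) ^ N) := by
    apply Real.log_nonneg
    exact one_le_pow₀ (by exact_mod_cast hN)
  have h7 : (N : ℝ) ^ 2 * Real.log ‖z‖ ≤ ∑ k : Fin N, Real.log ((‖z‖ ^ (k : ℕ)) ^ 2) := by
    have : ∀ k : Fin N, Real.log ((‖z‖ ^ (k : ℕ)) ^ 2) = (2 * (k : ℕ) : ℝ) * Real.log ‖z‖ := by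
      intro k
      rw [Real.log_pow, Real.log_pow]; push_cast; ring
    rw [Finset.sum_congr rfl (fun k _ => this k), ← Finset.sum_mul]
    refine mul_le_mul_of_nonpos_right ?_ hlz
    rw [← Finset.mul_sum, Fin.sum_univ_eq_sum_range (fun i => (i : ℝ)) N, ← Nat.cast_sum]
    have h8 : (∑ i ∈ Finset.range N, i) * 2 = N * (N - 1) := Finset.sum_range_id_mul_two N
    have h9 : (2 : ℝ) * ((∑ i ∈ Finset.range N, i : ℕ) : ℝ) = ((N * (N - 1) : ℕ) : ℝ) := by
      rw [← h8]; push_cast; ring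
    rw [h9]
    have h10 : N * (N - 1) ≤ N ^ 2 := by rw [pow_two]; exact Nat.mul_le_mul_left _ (by omega)
    exact_mod_cast h10
  linarith

theorem integrableOn_log : IntegrableOn (fun z : ℂ => Real.log ‖z‖) (Metric.ball (0 : ℂ) 1) := by
  have h := (integrableOn_fun_norm_addHaar (E := ℂ) (F := ℝ) (volume : Measure ℂ) (f := Real.log) (r := 1)).2
  refine h ?_
  rw [Complex.finrank_real_complex]
  simp only [Nat.add_one_sub_one, pow_one, smul_eq_mul]
  have hb : ∀ x ∈ Set.Ioo (0 : ℝ) 1, ‖x * Real.log x‖ ≤ 1 := by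
    intro x hx
    have h1 : Real.log x ≤ 0 := Real.log_nonpos hx.1.le hx.2.le
    have h2 := Real.one_sub_inv_le_log_of_pos hx.1
    rw [Real.norm_eq_abs, abs_mul, abs_of_pos hx.1, abs_of_nonpos h1]
    have h3 : x * (-Real.log x) ≤ x * (x⁻¹ - 1) := mul_le_mul_of_nonneg_left (by linarith) hx.1.le
    have h4 : x * (x⁻¹ - 1) = 1 - x := by rw [mul_sub, mul_inv_cancel₀ hx.1.ne']; ring
    have h5 := hx.1
    linarith
  refine Measure.integrableOn_of_bounded (M := 1) ?_ ?_ ?_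
  · simp
  · exact (measurable_id.mul Real.measurable_log).aestronglyMeasurable
  · exact (ae_restrict_iff' measurableSet_Ioo).2 (Filter.Eventually.of_forall hb)

end B3

theorem stmt_B3 : Stmt_B3 := by
  refine ⟨-∫ z in Metric.ball (0 : ℂ) 1, Real.log ‖z‖, ?_, ?_⟩
  · rw [neg_nonneg]
    refine setIntegral_nonpos measurableSet_ball (fun z hz => ?_)
    exact Real.log_nonpos (norm_nonneg _) (by simpa using (mem_ball_zero_iff.1 hz).le)
  intro N E ε hN hE hε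
  obtain ⟨ζ, hζ⟩ : ∃ ζ : ℂ, IsPrimitiveRoot ζ N := ⟨_, Complex.isPrimitiveRoot_exp N (by omega)⟩
  have hNpos : (0 : ℝ) < N := by exact_mod_cast hN
  set f : ℂ → ℝ := fun z => Real.log (ε + ∑ j : Fin N, ‖∑ k : Fin N, z ^ (k : ℕ) * E k j‖ ^ 2) with hf
  have hposf : ∀ z : ℂ, 0 < ε + ∑ j : Fin N, ‖∑ k : Fin N, z ^ (k : ℕ) * E k j‖ ^ 2 := by
    intro z
    have : 0 ≤ ∑ j : Fin N, ‖∑ k : Fin N, z ^ (k : ℕ) * E k j‖ ^ 2 :=
      Finset.sum_nonneg (fun j _ => by positivity)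
    linarith
  have hfc : Continuous f := by
    rw [hf]
    refine Continuous.log ?_ (fun z => (hposf z).ne')
    fun_prop
  have hfi : ∀ g : ℂ → ℝ, Continuous g → IntegrableOn g (Metric.ball (0 : ℂ) 1) := fun g hg =>
    (hg.continuousOn.integrableOn_compact (isCompact_closedBall (0 : ℂ) 1)).mono_set
      Metric.ball_subset_closedBall
  have hnorm : ‖ζ‖ = 1 := Complex.norm_eq_one_of_pow_eq_one hζ.pow_eq_one (by omega)
  have hrot : ∀ i : ℕ, ∫ z in Metric.ball (0 : ℂ) 1, f (ζ ^ i * z) = ∫ z in Metric.ball (0 : ℂ) 1, f z := by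
    intro i
    have hu : ‖ζ ^ i‖ = 1 := by rw [norm_pow, hnorm, one_pow]
    set a : Circle := ⟨ζ ^ i, by simp [Submonoid.unitSphere, hu]⟩ with ha
    have hmp := (rotation a).measurePreserving
    have hpre : (rotation a) ⁻¹' (Metric.ball (0 : ℂ) 1) = Metric.ball (0 : ℂ) 1 := by
      ext z
      simp only [Set.mem_preimage, mem_ball_zero_iff]
      rw [LinearIsometryEquiv.norm_map]
    have := hmp.setIntegral_preimage_emb (rotation a).toHomeomorph.measurableEmbedding f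
      (Metric.ball (0 : ℂ) 1)
    rw [hpre] at this
    rw [← this]
    rfl
  have hsum : (N : ℝ) * ∫ z in Metric.ball (0 : ℂ) 1, f z
      = ∫ z in Metric.ball (0 : ℂ) 1, ∑ i : Fin N, f (ζ ^ (i : ℕ) * z) := by
    rw [integral_finsetSum]
    · rw [Finset.sum_congr rfl (fun (i : Fin N) _ => hrot (i : ℕ))]
      simp
    · intro i _
      exact hfi _ (hfc.comp (continuous_const.mul continuous_id))
  have hlow : ∫ z in Metric.ball (0 : ℂ) 1, (Real.log (‖E.det‖ ^ 2) + N ^ 2 * Real.log ‖z‖)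
      ≤ ∫ z in Metric.ball (0 : ℂ) 1, ∑ i : Fin N, f (ζ ^ (i : ℕ) * z) := by
    refine setIntegral_mono_on_ae ?_ ?_ measurableSet_ball ?_
    · exact (integrableOn_const (by simp)).add (B3.integrableOn_log.const_mul _)
    · exact hfi _ (continuous_finsetSum _ (fun i _ => hfc.comp (continuous_const.mul continuous_id)))
    · have h0 : ∀ᵐ z : ℂ, z ≠ 0 := by
        simp [ae_iff, measure_singleton]
      filter_upwards [h0] with z hz hzb
      exact B3.pointwise hN E hE ε hε hζ z hz (by simpa using hzb)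
  have hval : ∫ z in Metric.ball (0 : ℂ) 1, (Real.log (‖E.det‖ ^ 2) + N ^ 2 * Real.log ‖z‖)
      = Real.pi * Real.log (‖E.det‖ ^ 2) + N ^ 2 * ∫ z in Metric.ball (0 : ℂ) 1, Real.log ‖z‖ := by
    have hcst : Integrable (fun _ : ℂ => Real.log (‖E.det‖ ^ 2))
        (volume.restrict (Metric.ball (0 : ℂ) 1)) := integrableOn_const (by simp)
    rw [integral_add hcst (B3.integrableOn_log.const_mul _),
      integral_const_mul, setIntegral_const]
    congr 1
    rw [Measure.real, Complex.volume_ball]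
    simp
  rw [hval, ← hsum] at hlow
  have h1 : Real.pi / N * Real.log (‖E.det‖ ^ 2) - (-∫ z in Metric.ball (0 : ℂ) 1, Real.log ‖z‖) * N
      = (Real.pi * Real.log (‖E.det‖ ^ 2) + N ^ 2 * ∫ z in Metric.ball (0 : ℂ) 1, Real.log ‖z‖) / N := by
    field_simp
    ring
  rw [h1, div_le_iff₀ hNpos]
  linarith

end CMA
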